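import Pool.Agent.Q81.EX.Stm

/-! Project EX (helper81), job CTS. -/

set_option autoImplicit false
set_option linter.unusedVariables false

namespace Pool.Agent.Q90.EX

open Set MeasureTheory Filter Topology
open Pool.Agent.Q81.EX

lemma hb_meas {h : ℝ → ℝ} (hb : Hb h) :
    AEStronglyMeasurable h (volume.restrict (Ioc (0 : ℝ) 1)) := by
  rw [← Measure.restrict_congr_set (Ioo_ae_eq_Ioc (μ := volume) (a := (0 : ℝ)) (b := 1))]
  exact (hb.cont.mono Ioo_subset_Ico_self).aestronglyMeasurable measurableSet_Ioo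

lemma hb_bd {h : ℝ → ℝ} (hb : Hb h) {r : ℝ} (hr : r ∈ Icc (0 : ℝ) 1) :
    0 ≤ (1 - r) * h r ∧ (1 - r) * h r ≤ 12 := by
  rcases lt_or_eq_of_le hr.2 with h1 | h1
  · have h0 := hb.nonneg r ⟨hr.1, h1⟩
    have h2 := hb.le r ⟨hr.1, h1⟩
    have h3 : 0 < 1 - r := by linarith
    refine ⟨mul_nonneg h3.le h0, ?_⟩
    calc (1 - r) * h r ≤ (1 - r) * (12 / (1 - r)) := mul_le_mul_of_nonneg_left h2 h3.le
      _ = 12 := by field_simp
  · rw [h1]
    constructor <;> norm_num

lemma hb_int {h : ℝ → ℝ} (hb : Hb h) :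
    IntervalIntegrable (fun r => (1 - r) * h r) volume 0 1 := by
  rw [intervalIntegrable_iff_integrableOn_Ioc_of_le zero_le_one]
  refine Integrable.of_bound (C := 12) ?_ ?_
  · have hc : AEStronglyMeasurable (fun r : ℝ => 1 - r) (volume.restrict (Ioc (0 : ℝ) 1)) :=
      (continuous_const.sub continuous_id).aestronglyMeasurable
    exact hc.mul (hb_meas hb)
  · refine (ae_restrict_iff' measurableSet_Ioc).2 (Eventually.of_forall fun r hr => ?_)
    have := hb_bd hb (Ioc_subset_Icc_self hr)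
    rw [Real.norm_eq_abs, abs_le]
    constructor <;> linarith [this.1, this.2]

/-- the integrand -/
noncomputable def kk (H h : ℝ → ℝ) (r : ℝ) : ℝ := |r * ((1 - r) * H r - (1 - r) * h r)|

lemma kk_int {H h : ℝ → ℝ} (hH : Hb H) (hb : Hb h) :
    IntervalIntegrable (kk H h) volume 0 1 := by
  have h1 := (hb_int hH).sub (hb_int hb)
  have h2 := h1.continuousOn_mul (g := fun r : ℝ => r) continuousOn_id
  exact h2.abs

lemma kk_nonneg (H h : ℝ → ℝ) (r : ℝ) : 0 ≤ kk H h r := abs_nonneg _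

lemma kk_le {H h : ℝ → ℝ} (hH : Hb H) (hb : Hb h) {r : ℝ} (hr : r ∈ Icc (0 : ℝ) 1) :
    kk H h r ≤ 12 := by
  have h1 := hb_bd hH hr
  have h2 := hb_bd hb hr
  unfold kk
  rw [abs_mul, abs_of_nonneg hr.1]
  have h3 : |(1 - r) * H r - (1 - r) * h r| ≤ 12 := by
    rw [abs_le]
    constructor <;> linarith [h1.1, h1.2, h2.1, h2.2]
  calc r * |(1 - r) * H r - (1 - r) * h r| ≤ 1 * 12 :=
        mul_le_mul hr.2 h3 (abs_nonneg _) zero_le_one
    _ = 12 := by norm_num

lemma kk_eq (H h : ℝ → ℝ) {r : ℝ} (hr : r ∈ Icc (0 : ℝ) 1) :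
    kk H h r = r * (1 - r) * |H r - h r| := by
  unfold kk
  rw [← mul_sub, abs_mul, abs_mul, abs_of_nonneg hr.1, abs_of_nonneg (by linarith [hr.2] : (0 : ℝ) ≤ 1 - r)]
  ring

lemma qq_diff {H h : ℝ → ℝ} (hH : Hb H) (hb : Hb h) {s : ℝ} (hs : s ∈ Icc (0 : ℝ) 1) :
    |qq H s - qq h s| ≤ ∫ r in (0 : ℝ)..1, kk H h r := by
  have hk := kk_int hH hb
  rcases lt_or_eq_of_le hs.2 with h1 | h1
  swap
  · have e1 : qq H s - qq h s = 0 := by
      rw [h1]
      simp [qq]
    rw [e1, abs_zero]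
    exact intervalIntegral.integral_nonneg zero_le_one fun r _ => kk_nonneg H h r
  have hsub : uIcc (0 : ℝ) s ⊆ Ico 0 1 := by
    rw [uIcc_of_le hs.1]
    exact fun x hx => ⟨hx.1, hx.2.trans_lt h1⟩
  have i1 : IntervalIntegrable (fun r => r * H r) volume 0 s :=
    (continuousOn_id.mul (hH.cont.mono hsub)).intervalIntegrable
  have i2 : IntervalIntegrable (fun r => r * h r) volume 0 s :=
    (continuousOn_id.mul (hb.cont.mono hsub)).intervalIntegrable
  have hs1 : uIcc s 1 ⊆ uIcc (0 : ℝ) 1 := by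
    rw [uIcc_of_le hs.2, uIcc_of_le zero_le_one]
    exact Icc_subset_Icc hs.1 le_rfl
  have hs0 : uIcc (0 : ℝ) s ⊆ uIcc (0 : ℝ) 1 := by
    rw [uIcc_of_le hs.1, uIcc_of_le zero_le_one]
    exact Icc_subset_Icc le_rfl hs.2
  have i3 : IntervalIntegrable (fun r => (1 - r) * H r) volume s 1 := (hb_int hH).mono_set hs1
  have i4 : IntervalIntegrable (fun r => (1 - r) * h r) volume s 1 := (hb_int hb).mono_set hs1
  have k1 : IntervalIntegrable (kk H h) volume 0 s := hk.mono_set hs0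
  have k2 : IntervalIntegrable (kk H h) volume s 1 := hk.mono_set hs1
  have e1 : qq H s - qq h s = (∫ r in (0 : ℝ)..s, (1 - s) * (r * H r - r * h r)) +
      ∫ r in s..1, s * ((1 - r) * H r - (1 - r) * h r) := by
    rw [intervalIntegral.integral_const_mul, intervalIntegral.integral_const_mul,
      intervalIntegral.integral_sub i1 i2, intervalIntegral.integral_sub i3 i4]
    unfold qq
    ring
  have j1 : |∫ r in (0 : ℝ)..s, (1 - s) * (r * H r - r * h r)| ≤ ∫ r in (0 : ℝ)..s, kk H h r := by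
    refine (intervalIntegral.abs_integral_le_integral_abs hs.1).trans ?_
    refine intervalIntegral.integral_mono_on hs.1 ((i1.sub i2).const_mul (1 - s)).abs k1 ?_
    intro r hr
    have hr' : r ∈ Icc (0 : ℝ) 1 := ⟨hr.1, hr.2.trans hs.2⟩
    rw [kk_eq H h hr', ← mul_sub, abs_mul, abs_mul, abs_of_nonneg hr.1,
      abs_of_nonneg (by linarith : (0 : ℝ) ≤ 1 - s)]
    have a1 : 0 ≤ r * |H r - h r| := mul_nonneg hr.1 (abs_nonneg _)
    calc (1 - s) * (r * |H r - h r|) ≤ (1 - r) * (r * |H r - h r|) :=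
          mul_le_mul_of_nonneg_right (by linarith [hr.2]) a1
      _ = r * (1 - r) * |H r - h r| := by ring
  have j2 : |∫ r in s..1, s * ((1 - r) * H r - (1 - r) * h r)| ≤ ∫ r in s..1, kk H h r := by
    refine (intervalIntegral.abs_integral_le_integral_abs hs.2).trans ?_
    refine intervalIntegral.integral_mono_on hs.2 ((i3.sub i4).const_mul s).abs k2 ?_
    intro r hr
    unfold kk
    rw [abs_mul, abs_mul, abs_of_nonneg hs.1, abs_of_nonneg (hs.1.trans hr.1)]
    exact mul_le_mul_of_nonneg_right hr.1 (abs_nonneg _)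
  rw [e1, ← intervalIntegral.integral_add_adjacent_intervals k1 k2]
  exact (abs_add_le _ _).trans (add_le_add j1 j2)

lemma gg_diff {p q : ℝ → ℝ} (hp : ContinuousOn p (Icc 0 1)) (hq : ContinuousOn q (Icc 0 1))
    {ε : ℝ} (hε : ∀ x ∈ Icc (0 : ℝ) 1, |q x - p x| ≤ ε) {s : ℝ} (hs : s ∈ Icc (0 : ℝ) 1) :
    |GG q s - GG p s| ≤ ε := by
  have hs1 : uIcc s 1 ⊆ Icc (0 : ℝ) 1 := by
    rw [uIcc_of_le hs.2]
    exact Icc_subset_Icc hs.1 le_rfl
  have e : GG q s - GG p s = ∫ r in s..1, (q r - p r) := by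
    unfold GG
    rw [intervalIntegral.integral_sub (hq.mono hs1).intervalIntegrable
      (hp.mono hs1).intervalIntegrable]
  have hε0 : 0 ≤ ε := (abs_nonneg _).trans (hε 0 ⟨le_rfl, zero_le_one⟩)
  have := intervalIntegral.norm_integral_le_of_norm_le_const (a := s) (b := 1) (C := ε)
    (f := fun r => q r - p r) (fun x hx => by
      rw [uIoc_of_le hs.2] at hx
      exact hε x ⟨hs.1.trans hx.1.le, hx.2⟩)
  rw [e]
  refine this.trans ?_
  rw [abs_of_nonneg (by linarith [hs.2] : (0 : ℝ) ≤ 1 - s)]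
  nlinarith [hs.1, hs.2]

lemma ff_diff {p q : ℝ → ℝ} (hp : ContinuousOn p (Icc 0 1)) (hq : ContinuousOn q (Icc 0 1))
    (gp : ContinuousOn (GG p) (Icc 0 1)) (gq : ContinuousOn (GG q) (Icc 0 1))
    {ε : ℝ} (hε : ∀ x ∈ Icc (0 : ℝ) 1, |q x - p x| ≤ ε) {s : ℝ} (hs : s ∈ Icc (0 : ℝ) 1) :
    |FF q s - FF p s| ≤ 2 * ε := by
  have hs0 : uIcc (0 : ℝ) s ⊆ Icc (0 : ℝ) 1 := by
    rw [uIcc_of_le hs.1]
    exact Icc_subset_Icc le_rfl hs.2
  have hε0 : 0 ≤ ε := (abs_nonneg _).trans (hε 0 ⟨le_rfl, zero_le_one⟩)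
  have e : FF q s - FF p s = 3 / 2 * (∫ r in (0 : ℝ)..s, (GG q r - GG p r)) -
      1 / 2 * s * (GG q s - GG p s) := by
    rw [intervalIntegral.integral_sub (gq.mono hs0).intervalIntegrable
      (gp.mono hs0).intervalIntegrable]
    unfold FF
    ring
  have h1 := intervalIntegral.norm_integral_le_of_norm_le_const (a := 0) (b := s) (C := ε)
    (f := fun r => GG q r - GG p r) (fun x hx => by
      rw [uIoc_of_le hs.1] at hx
      exact gg_diff hp hq hε ⟨hx.1.le, hx.2.trans hs.2⟩)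
  have h2 := gg_diff hp hq hε hs
  rw [Real.norm_eq_abs, sub_zero, abs_of_nonneg hs.1] at h1
  have h3 : |∫ r in (0 : ℝ)..s, (GG q r - GG p r)| ≤ ε := by
    refine h1.trans ?_
    nlinarith [hs.1, hs.2]
  have h4 : |s * (GG q s - GG p s)| ≤ ε := by
    rw [abs_mul, abs_of_nonneg hs.1]
    calc s * |GG q s - GG p s| ≤ 1 * ε := mul_le_mul hs.2 h2 (abs_nonneg _) zero_le_one
      _ = ε := one_mul _
  rw [e]
  rw [abs_le] at h3 h4 ⊢
  constructor
  · linarith [h3.1, h3.2, h4.1, h4.2]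
  · linarith [h3.1, h3.2, h4.1, h4.2]

/-- JOB CTS -/
theorem cts (hBND : S_BND) (hGBD : S_GBD) (hHHB : S_HHB) (hQCV : S_QCV) (hINV : S_INV) :
    S_CTS := by
  intro p P hp hP hu
  have hup := Metric.tendstoUniformlyOn_iff.1 hu
  have hgc : ∀ q : ℝ → ℝ, Adm q → ContinuousOn (GG q) (Icc 0 1) := fun q hq s hs =>
    ((hGBD q hq).2.1 s hs).continuousWithinAt
  have hb : Hb (hh p) := (hHHB p hp.1).1
  have hbP : ∀ n, Hb (hh (P n)) := fun n => (hHHB (P n) (hP n).1).1
  -- pointwise convergence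
  have hGt : ∀ s ∈ Icc (0 : ℝ) 1, Tendsto (fun n => GG (P n) s) atTop (𝓝 (GG p s)) := by
    intro s hs
    refine Metric.tendsto_nhds.2 fun ε hε => ?_
    filter_upwards [hup (ε / 2) (by positivity)] with n hn
    rw [Real.dist_eq]
    refine lt_of_le_of_lt (gg_diff hp.1.cont (hP n).1.cont (ε := ε / 2) (fun x hx => ?_) hs)
      (by linarith)
    have := hn x hx
    rw [Real.dist_eq, abs_sub_comm] at this
    exact this.le
  have hFt : ∀ s ∈ Icc (0 : ℝ) 1, Tendsto (fun n => FF (P n) s) atTop (𝓝 (FF p s)) := by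
    intro s hs
    refine Metric.tendsto_nhds.2 fun ε hε => ?_
    filter_upwards [hup (ε / 4) (by positivity)] with n hn
    rw [Real.dist_eq]
    refine lt_of_le_of_lt (ff_diff hp.1.cont (hP n).1.cont (hgc p hp.1) (hgc (P n) (hP n).1)
      (ε := ε / 4) (fun x hx => ?_) hs) (by linarith)
    have := hn x hx
    rw [Real.dist_eq, abs_sub_comm] at this
    exact this.le
  have hHt : ∀ s ∈ Ico (0 : ℝ) 1, Tendsto (fun n => hh (P n) s) atTop (𝓝 (hh p s)) := by
    intro s hs
    have hs' : s ∈ Icc (0 : ℝ) 1 := ⟨hs.1, hs.2.le⟩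
    have hpos : GG p s ≠ 0 := by
      have h1 := ((hGBD p hp.1).1 s hs').1
      have h2 : 0 < (1 - s) ^ 2 / 12 := by
        have : 0 < 1 - s := by linarith [hs.2]
        positivity
      linarith
    exact (hFt s hs').div (hGt s hs') hpos
  -- the errors
  obtain ⟨e, he⟩ : ∃ e : ℕ → ℝ, e = fun n => ∫ r in (0 : ℝ)..1, kk (hh (P n)) (hh p) r :=
    ⟨_, rfl⟩
  have he0 : Tendsto e atTop (𝓝 0) := by
    have h1 : Tendsto (fun n => ∫ r in (0 : ℝ)..1, kk (hh (P n)) (hh p) r) atTop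
        (𝓝 (∫ r in (0 : ℝ)..1, (0 : ℝ))) := by
      refine intervalIntegral.tendsto_integral_filter_of_dominated_convergence (fun _ => (12 : ℝ))
        (Eventually.of_forall fun n => ?_) (Eventually.of_forall fun n => ?_) ?_ ?_
      · have := kk_int (hbP n) hb
        exact this.aestronglyMeasurable_restrict_uIoc
      · refine Eventually.of_forall fun r hr => ?_
        rw [uIoc_of_le zero_le_one] at hr
        rw [Real.norm_eq_abs, abs_of_nonneg (kk_nonneg _ _ _)]
        exact kk_le (hbP n) hb (Ioc_subset_Icc_self hr)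
      · exact intervalIntegrable_const
      · refine Eventually.of_forall fun r hr => ?_
        rw [uIoc_of_le zero_le_one] at hr
        rcases lt_or_eq_of_le hr.2 with h1 | h1
        · have h2 := hHt r ⟨hr.1.le, h1⟩
          have h3 : Tendsto (fun n => |r * ((1 - r) * hh (P n) r - (1 - r) * hh p r)|) atTop
              (𝓝 |r * ((1 - r) * hh p r - (1 - r) * hh p r)|) :=
            (((h2.const_mul (1 - r)).sub_const _).const_mul r).abs
          rw [sub_self, mul_zero, abs_zero] at h3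
          exact h3
        · have : (fun n => kk (hh (P n)) (hh p) r) = fun _ => (0 : ℝ) := by
            funext n
            rw [h1]
            simp [kk]
          rw [this]
          exact tendsto_const_nhds
    rw [he]
    simpa using h1
  have hqd : ∀ n, ∀ s ∈ Icc (0 : ℝ) 1, |qq (hh (P n)) s - qq (hh p) s| ≤ e n := by
    intro n s hs
    rw [he]
    exact qq_diff (hbP n) hb hs
  have hen : ∀ n, 0 ≤ e n := fun n => (abs_nonneg _).trans (hqd n 0 ⟨le_rfl, zero_le_one⟩)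
  have hqc : ∀ h : ℝ → ℝ, Hb h → ContinuousOn (qq h) (Icc 0 1) := fun h hb => (hQCV h hb).1
  -- first moments
  have hI : ∀ n, |I1 (qq (hh (P n))) - I1 (qq (hh p))| ≤ e n := by
    intro n
    have u01 : uIcc (0 : ℝ) 1 = Icc 0 1 := uIcc_of_le zero_le_one
    have c1 : IntervalIntegrable (fun r => r * qq (hh (P n)) r) volume 0 1 := by
      refine ContinuousOn.intervalIntegrable ?_
      rw [u01]
      exact continuousOn_id.mul (hqc _ (hbP n))
    have c2 : IntervalIntegrable (fun r => r * qq (hh p) r) volume 0 1 := by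
      refine ContinuousOn.intervalIntegrable ?_
      rw [u01]
      exact continuousOn_id.mul (hqc _ hb)
    have e1 : I1 (qq (hh (P n))) - I1 (qq (hh p)) =
        ∫ r in (0 : ℝ)..1, (r * qq (hh (P n)) r - r * qq (hh p) r) := by
      unfold I1
      rw [intervalIntegral.integral_sub c1 c2]
    have := intervalIntegral.norm_integral_le_of_norm_le_const (a := 0) (b := 1) (C := e n)
      (f := fun r => r * qq (hh (P n)) r - r * qq (hh p) r) (fun x hx => by
        rw [uIoc_of_le zero_le_one] at hx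
        rw [← mul_sub, norm_mul, Real.norm_eq_abs, Real.norm_eq_abs, abs_of_nonneg hx.1.le]
        calc x * |qq (hh (P n)) x - qq (hh p) x| ≤ 1 * e n :=
              mul_le_mul hx.2 (hqd n x (Ioc_subset_Icc_self hx)) (abs_nonneg _) zero_le_one
          _ = e n := one_mul _)
    rw [e1]
    simpa using this
  have hIt : Tendsto (fun n => I1 (qq (hh (P n)))) atTop (𝓝 (I1 (qq (hh p)))) := by
    rw [tendsto_iff_dist_tendsto_zero]
    refine squeeze_zero (fun n => dist_nonneg) (fun n => ?_) he0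
    rw [Real.dist_eq]
    exact hI n
  have hIpos : 0 < I1 (qq (hh p)) := by
    have h1 := (hINV p hp.1 hp.2.1).1
    have h2 : 0 < DD p := lt_of_lt_of_le (by unfold dl; norm_num) hp.2.1
    have h3 : 0 < DD p / 1440 := by positivity
    linarith
  have hct : Tendsto (fun n => 2 / 3 / I1 (qq (hh (P n)))) atTop (𝓝 (2 / 3 / I1 (qq (hh p)))) :=
    tendsto_const_nhds.div hIt hIpos.ne'
  have hbt : Tendsto (fun n => |2 / 3 / I1 (qq (hh (P n)))| * e n +
      24 * |2 / 3 / I1 (qq (hh (P n))) - 2 / 3 / I1 (qq (hh p))|) atTop (𝓝 0) := by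
    have h1 := hct.abs.mul he0
    have h2 := ((hct.sub_const (2 / 3 / I1 (qq (hh p)))).abs).const_mul 24
    rw [sub_self, abs_zero, mul_zero] at h2
    rw [mul_zero] at h1
    simpa using h1.add h2
  refine Metric.tendstoUniformlyOn_iff.2 fun ε hε => ?_
  filter_upwards [(tendsto_order.1 hbt).2 ε hε] with n hn s hs
  rw [dist_comm, Real.dist_eq]
  refine lt_of_le_of_lt ?_ hn
  have q24 : |qq (hh p) s| ≤ 24 := by
    have h1 := (hQCV (hh p) hb).2.2.2.2.1 s hs
    rw [abs_of_nonneg h1.1]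
    refine h1.2.trans ?_
    have h2 : Real.sqrt (1 - s) ≤ 1 :=
      calc Real.sqrt (1 - s) ≤ Real.sqrt 1 := Real.sqrt_le_sqrt (by linarith [hs.1])
        _ = 1 := Real.sqrt_one
    have h3 : s * Real.sqrt (1 - s) ≤ 1 * 1 := mul_le_mul hs.2 h2 (Real.sqrt_nonneg _) zero_le_one
    linarith
  obtain ⟨c, hc⟩ : ∃ c : ℝ, c = 2 / 3 / I1 (qq (hh p)) := ⟨_, rfl⟩
  obtain ⟨d, hd⟩ : ∃ d : ℝ, d = 2 / 3 / I1 (qq (hh (P n))) := ⟨_, rfl⟩
  have e1 : TT (P n) s - TT p s = d * (qq (hh (P n)) s - qq (hh p) s) + (d - c) * qq (hh p) s := by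
    unfold TT
    rw [hc, hd]
    ring
  rw [e1, ← hc, ← hd]
  refine (abs_add_le _ _).trans ?_
  rw [abs_mul, abs_mul]
  have h1 := mul_le_mul_of_nonneg_left (hqd n s hs) (abs_nonneg d)
  have h2 := mul_le_mul_of_nonneg_left q24 (abs_nonneg (d - c))
  linarith

end Pool.Agent.Q90.EX
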